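import Pool.Agent.H77.GR.Stm

/-!
Project GR (helper77), module EXL: logarithmic vector fields with prescribed value at a further form.
-/

set_option autoImplicit false

open MvPolynomial Module Pool.Agent.H77.TF Pool.Agent.H77.GR

namespace Pool.Agent.H66.GR

section
variable {K : Type} [Field K]

theorem evl_const {l : ℕ} (a : Fin l → K) (P : MvPolynomial (Fin l) K) (η : Fin l → K) :
    evl a (fun k => P * C (η k)) = P * C (∑ k, a k * η k) := by
  simp only [evl, map_sum, Finset.mul_sum, map_mul]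
  exact Finset.sum_congr rfl fun k _ => by ring

theorem evl_sum {l : ℕ} {ι : Type*} (s : Finset ι) (a : Fin l → K)
    (v : ι → Fin l → MvPolynomial (Fin l) K) : evl a (∑ j ∈ s, v j) = ∑ j ∈ s, evl a (v j) := by
  classical
  simp only [evl, Finset.sum_apply, Finset.mul_sum]
  exact Finset.sum_comm

theorem lin_hom {l : ℕ} (a : Fin l → K) : (lin a).IsHomogeneous 1 := by
  refine IsHomogeneous.sum _ _ _ fun i _ => ?_
  simpa using (isHomogeneous_C (Fin l) (a i)).mul (isHomogeneous_X K i)

/-- a vector orthogonal to `x` on which `a` is one -/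
theorem exists_eta {a x : Fin 3 → K} {j₀ : Fin 3} (ha : a j₀ ≠ 0) (hx : ∀ t : K, x ≠ t • a) :
    ∃ η : Fin 3 → K, ∑ k, x k * η k = 0 ∧ ∑ k, a k * η k = 1 := by
  classical
  have h : ∃ t, a j₀ * x t - a t * x j₀ ≠ 0 := by
    by_contra hc
    push Not at hc
    refine hx (x j₀ / a j₀) ?_
    funext t
    have := hc t
    rw [Pi.smul_apply, smul_eq_mul]
    field_simp
    linear_combination this
  obtain ⟨t, ht⟩ := h
  set D := a j₀ * x t - a t * x j₀ with hD
  refine ⟨fun k => D⁻¹ * (x t * (Pi.single j₀ (1 : K) : Fin 3 → K) k -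
    x j₀ * (Pi.single t (1 : K) : Fin 3 → K) k), ?_, ?_⟩
  · have e : ∀ y : Fin 3 → K, ∑ k, y k * (D⁻¹ * (x t * (Pi.single j₀ (1 : K) : Fin 3 → K) k -
        x j₀ * (Pi.single t (1 : K) : Fin 3 → K) k)) = D⁻¹ * (x t * y j₀ - x j₀ * y t) := by
      intro y
      have e1 : ∀ s : Fin 3, ∑ k, y k * (Pi.single s (1 : K) : Fin 3 → K) k = y s := by
        intro s
        simp [Pi.single_apply]
      calc _ = D⁻¹ * (x t * ∑ k, y k * (Pi.single j₀ (1 : K) : Fin 3 → K) k -
          x j₀ * ∑ k, y k * (Pi.single t (1 : K) : Fin 3 → K) k) := by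
            rw [Finset.mul_sum, Finset.mul_sum, ← Finset.sum_sub_distrib, Finset.mul_sum]
            exact Finset.sum_congr rfl fun k _ => by ring
        _ = _ := by rw [e1, e1]
    rw [e]
    ring
  · have e : ∀ y : Fin 3 → K, ∑ k, y k * (D⁻¹ * (x t * (Pi.single j₀ (1 : K) : Fin 3 → K) k -
        x j₀ * (Pi.single t (1 : K) : Fin 3 → K) k)) = D⁻¹ * (x t * y j₀ - x j₀ * y t) := by
      intro y
      have e1 : ∀ s : Fin 3, ∑ k, y k * (Pi.single s (1 : K) : Fin 3 → K) k = y s := by
        intro s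
        simp [Pi.single_apply]
      calc _ = D⁻¹ * (x t * ∑ k, y k * (Pi.single j₀ (1 : K) : Fin 3 → K) k -
          x j₀ * ∑ k, y k * (Pi.single t (1 : K) : Fin 3 → K) k) := by
            rw [Finset.mul_sum, Finset.mul_sum, ← Finset.sum_sub_distrib, Finset.mul_sum]
            exact Finset.sum_congr rfl fun k _ => by ring
        _ = _ := by rw [e1, e1]
    rw [e]
    have : x t * a j₀ - x j₀ * a t = D := by rw [hD]; ring
    rw [this, inv_mul_cancel₀ ht]

/-- the restriction of a form to the plane `a` -/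
noncomputable def bb (a : Fin 3 → K) (j₀ : Fin 3) (x : Fin 3 → K) : Fin 2 → K :=
  fun s => x (j₀.succAbove s) - x j₀ / a j₀ * a (j₀.succAbove s)

theorem rho_lin {a : Fin 3 → K} {j₀ : Fin 3} (ha : a j₀ ≠ 0)
    (ρ : MvPolynomial (Fin 3) K →ₐ[K] MvPolynomial (Fin 2) K)
    (h1 : ∀ i, ρ (X (j₀.succAbove i)) = X i) (h2 : ρ (lin a) = 0) (x : Fin 3 → K) :
    ρ (lin x) = lin (bb a j₀ x) := by
  have h3 : ∀ y : Fin 3 → K, ρ (lin y) =
      C (y j₀) * ρ (X j₀) + ∑ s, C (y (j₀.succAbove s)) * X s := by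
    intro y
    rw [lin, Fin.sum_univ_succAbove _ j₀, map_add, map_mul, map_sum]
    congr 1
    · congr 1
      exact ρ.commutes (y j₀)
    · refine Finset.sum_congr rfl fun s _ => ?_
      rw [map_mul, h1]
      congr 1
      exact ρ.commutes _
  have h4 := h3 a
  rw [h2] at h4
  rw [h3 x]
  have h5 : C (x j₀) * ρ (X j₀) = - (C (x j₀ / a j₀) * ∑ s, C (a (j₀.succAbove s)) * X s) := by
    have h6 : C (x j₀) = C (x j₀ / a j₀) * (C (a j₀) : MvPolynomial (Fin 2) K) := by
      rw [← C_mul, div_mul_cancel₀ _ ha]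
    rw [h6]
    linear_combination - C (x j₀ / a j₀) * h4
  rw [h5, lin, Finset.mul_sum, ← Finset.sum_neg_distrib, ← Finset.sum_add_distrib]
  refine Finset.sum_congr rfl fun s _ => ?_
  simp only [bb, C_sub, C_mul]
  ring

theorem bb_span {a : Fin 3 → K} {j₀ : Fin 3} (ha : a j₀ ≠ 0) {x y : Fin 3 → K} {t : K}
    (h : bb a j₀ x = t • bb a j₀ y) : x = (x j₀ / a j₀ - t * (y j₀ / a j₀)) • a + t • y := by
  funext k
  rcases Fin.eq_self_or_eq_succAbove j₀ k with rfl | ⟨s, rfl⟩
  · simp only [Pi.add_apply, Pi.smul_apply, smul_eq_mul]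
    field_simp
    ring
  · have := congrFun h s
    simp only [bb, Pi.smul_apply, smul_eq_mul] at this
    simp only [Pi.add_apply, Pi.smul_apply, smul_eq_mul]
    linear_combination this

end

theorem exl (hLAG : S_LAG) : S_EXL := by
  classical
  intro K _ n A a j₀ ρ c hA ha hAa h1 h2 h3 _ hcov hdist m e g hg hm hn
  rcases Nat.eq_zero_or_pos n with hn0 | hn0
  · subst hn0
    obtain ⟨η, _, hη⟩ : ∃ η : Fin 3 → K, True ∧ ∑ k, a k * η k = 1 := by
      refine ⟨fun k => (a j₀)⁻¹ * (Pi.single j₀ (1 : K) : Fin 3 → K) k, trivial, ?_⟩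
      simp only [Pi.single_apply]
      simp [ha]
    have hc : c = ∅ := Finset.eq_empty_of_forall_notMem fun i => i.elim0
    subst hc
    have hme : m = e := by simpa using hm
    subst hme
    refine ⟨fun k => rename j₀.succAbove g * C (η k), fun i => i.elim0, fun k => ?_, ?_⟩
    · simpa using (hg.rename_isHomogeneous (f := j₀.succAbove)).mul (isHomogeneous_C (Fin 3) (η k))
    · rw [evl_const, hη, C_1, mul_one, h3]
      have : ((∅ : Finset (Fin 0))ᶜ) = ∅ := Finset.eq_empty_of_forall_notMem fun i => i.elim0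
      rw [this, Finset.prod_empty, one_mul]
  have hcne : c.Nonempty := by
    obtain ⟨j, hj, _⟩ := hcov ⟨0, hn0⟩
    exact ⟨j, hj⟩
  have hb0 : ∀ i ∈ c, bb a j₀ (A i) ≠ 0 := by
    intro i _ h0
    refine hAa i (A i j₀ / a j₀) ?_
    have := bb_span (y := 0) (t := 0) ha (x := A i) (by rw [h0, zero_smul])
    simpa using this
  have hbd : ∀ i ∈ c, ∀ j ∈ c, ∀ t : K, bb a j₀ (A i) = t • bb a j₀ (A j) → i = j := by
    intro i hi j hj t ht
    refine hdist i hi j hj ?_
    rw [Submodule.mem_span_pair]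
    exact ⟨_, _, (bb_span ha ht).symm⟩
  obtain ⟨g', hg', hgs⟩ := hLAG K (Fin n) (fun i => bb a j₀ (A i)) c hb0 hbd hcne e g hg (by omega)
  have hη : ∀ j : Fin n, ∃ η : Fin 3 → K, ∑ k, A j k * η k = 0 ∧ ∑ k, a k * η k = 1 :=
    fun j => exists_eta ha (hAa j)
  choose η hη1 hη2 using hη
  set P : Fin n → MvPolynomial (Fin 3) K := fun j =>
    (∏ i ∈ Finset.univ.erase j, lin (A i)) * rename j₀.succAbove (g' j) with hP
  refine ⟨∑ j ∈ c, fun k => P j * C (η j k), ?_, ?_, ?_⟩
  · refine Submodule.sum_mem _ fun j _ => ?_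
    intro i
    rw [evl_const]
    by_cases hij : i = j
    · subst hij
      rw [hη1, C_0, mul_zero]
      exact dvd_zero _
    · refine Dvd.dvd.mul_right (Dvd.dvd.mul_right ?_ _) _
      exact Finset.dvd_prod_of_mem _ (Finset.mem_erase.2 ⟨hij, Finset.mem_univ i⟩)
  · intro k
    rw [Finset.sum_apply]
    refine IsHomogeneous.sum _ _ _ fun j _ => ?_
    have e1 : (∏ i ∈ Finset.univ.erase j, lin (A i)).IsHomogeneous (n - 1) := by
      have := IsHomogeneous.prod (Finset.univ.erase j) (fun i => lin (A i)) (fun _ => 1)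
        (fun i _ => lin_hom (A i))
      simpa using this
    have e2 := (e1.mul ((hg' j).rename_isHomogeneous (f := j₀.succAbove))).mul
      (isHomogeneous_C (Fin 3) (η j k))
    have e3 : n - 1 + (e + 1 - c.card) + 0 = m := by
      have : c.card ≤ n := by simpa using Finset.card_le_univ c
      omega
    rw [e3] at e2
    exact e2
  · rw [evl_sum, map_sum, hgs, Finset.mul_sum]
    refine Finset.sum_congr rfl fun j hj => ?_
    rw [evl_const, hη2, C_1, mul_one, hP]
    simp only
    rw [map_mul, h3, map_prod]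
    have e1 : (Finset.univ.erase j : Finset (Fin n)) = cᶜ ∪ c.erase j := by
      ext i
      simp only [Finset.mem_erase, Finset.mem_univ, and_true, Finset.mem_union, Finset.mem_compl]
      constructor
      · intro h
        by_cases hi : i ∈ c
        · exact Or.inr ⟨h, hi⟩
        · exact Or.inl hi
      · rintro (h | h)
        · rintro rfl
          exact h hj
        · exact h.1
    have e2 : Disjoint cᶜ (c.erase j) := by
      rw [Finset.disjoint_left]
      intro i hi hi'
      exact Finset.mem_compl.1 hi (Finset.mem_of_mem_erase hi')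
    rw [e1, Finset.prod_union e2]
    have e3 : ∏ i ∈ c.erase j, ρ (lin (A i)) = ∏ i ∈ c.erase j, lin (bb a j₀ (A i)) :=
      Finset.prod_congr rfl fun i _ => rho_lin ha ρ h1 h2 (A i)
    rw [e3]
    ring

end Pool.Agent.H66.GR
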